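import Pool.Agent.W744.BU.Stm

set_option autoImplicit false

open Set Filter Topology

namespace Pool.Agent.W639.BU.BLK

open Pool.Agent.W744.BU

theorem toReal_two : (2 : ENNReal).toReal = 2 := by norm_num

theorem hs {I : Type} (x : L2 I) : HasSum (fun i => ‖x i‖ ^ 2) (‖x‖ ^ 2) := by
  have h := lp.hasSum_norm (p := 2) (by norm_num) x
  simpa [toReal_two] using h

theorem mem_of_summable {I : Type} (g : I → ℂ) (h : Summable (fun i => ‖g i‖ ^ 2)) :
    Memℓp g 2 := by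
  apply memℓp_gen
  simpa [toReal_two] using h

section
variable {N : Type} {I : N → Type}

/-- the restriction to a block -/
noncomputable def res (n : N) (x : L2 (Σ n, I n)) : L2 (I n) :=
  ⟨fun i => x ⟨n, i⟩, mem_of_summable _ ((hs x).summable.comp_injective sigma_mk_injective)⟩

theorem res_apply (n : N) (x : L2 (Σ n, I n)) (i : I n) : (res n x) i = x ⟨n, i⟩ := rfl

theorem hs_res (x : L2 (Σ n, I n)) : HasSum (fun n => ‖res n x‖ ^ 2) (‖x‖ ^ 2) := by
  have h := hs x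
  exact h.sigma (fun n => hs (res n x))

theorem summ (f : ∀ n, Op (I n)) (C : ℝ) (hC : ∀ n, ‖f n‖ ≤ C) (x : L2 (Σ n, I n)) :
    Summable (fun n => ‖f n (res n x)‖ ^ 2) := by
  refine Summable.of_nonneg_of_le (fun n => by positivity) (fun n => ?_)
    ((hs_res x).summable.mul_left (C ^ 2))
  have h1 : ‖f n (res n x)‖ ≤ C * ‖res n x‖ :=
    ((f n).le_opNorm _).trans (mul_le_mul_of_nonneg_right (hC n) (norm_nonneg _))
  calc ‖f n (res n x)‖ ^ 2 ≤ (C * ‖res n x‖) ^ 2 := by gcongr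
    _ = C ^ 2 * ‖res n x‖ ^ 2 := by ring

theorem summS (f : ∀ n, Op (I n)) (C : ℝ) (hC : ∀ n, ‖f n‖ ≤ C) (x : L2 (Σ n, I n)) :
    Summable (fun p : Σ n, I n => ‖(f p.1 (res p.1 x)) p.2‖ ^ 2) := by
  rw [summable_sigma_of_nonneg (fun p => by positivity)]
  refine ⟨fun n => (hs (f n (res n x))).summable, ?_⟩
  have : (fun n => ∑' i, ‖(f n (res n x)) i‖ ^ 2) = fun n => ‖f n (res n x)‖ ^ 2 := by
    funext n
    exact (hs (f n (res n x))).tsum_eq
  simpa [this] using summ f C hC x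

/-- the vector -/
noncomputable def vec (f : ∀ n, Op (I n)) (C : ℝ) (hC : ∀ n, ‖f n‖ ≤ C) (x : L2 (Σ n, I n)) :
    L2 (Σ n, I n) :=
  ⟨fun p => (f p.1 (res p.1 x)) p.2, mem_of_summable _ (summS f C hC x)⟩

theorem vec_apply (f : ∀ n, Op (I n)) (C : ℝ) (hC : ∀ n, ‖f n‖ ≤ C) (x : L2 (Σ n, I n))
    (p : Σ n, I n) : (vec f C hC x) p = (f p.1 (res p.1 x)) p.2 := rfl

theorem res_vec (f : ∀ n, Op (I n)) (C : ℝ) (hC : ∀ n, ‖f n‖ ≤ C) (x : L2 (Σ n, I n)) (n : N) :
    res n (vec f C hC x) = f n (res n x) := by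
  apply lp.ext
  funext i
  rfl

theorem norm_vec (f : ∀ n, Op (I n)) (C : ℝ) (hC : ∀ n, ‖f n‖ ≤ C) (x : L2 (Σ n, I n)) :
    ‖vec f C hC x‖ ≤ |C| * ‖x‖ := by
  have h1 : HasSum (fun n => ‖f n (res n x)‖ ^ 2) (‖vec f C hC x‖ ^ 2) := by
    have := hs_res (vec f C hC x)
    simpa [res_vec] using this
  have h2 := (hs_res x).mul_left (C ^ 2)
  have h3 : ‖vec f C hC x‖ ^ 2 ≤ C ^ 2 * ‖x‖ ^ 2 := by
    refine hasSum_le (fun n => ?_) h1 h2
    have h1 : ‖f n (res n x)‖ ≤ C * ‖res n x‖ :=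
      ((f n).le_opNorm _).trans (mul_le_mul_of_nonneg_right (hC n) (norm_nonneg _))
    calc ‖f n (res n x)‖ ^ 2 ≤ (C * ‖res n x‖) ^ 2 := by gcongr
      _ = C ^ 2 * ‖res n x‖ ^ 2 := by ring
  have h4 : ‖vec f C hC x‖ ^ 2 ≤ (|C| * ‖x‖) ^ 2 := by
    rw [mul_pow, sq_abs]; exact h3
  exact le_of_sq_le_sq h4 (by positivity)

/-- the operator -/
noncomputable def T (f : ∀ n, Op (I n)) (C : ℝ) (hC : ∀ n, ‖f n‖ ≤ C) : Op (Σ n, I n) :=
  LinearMap.mkContinuous
    { toFun := vec f C hC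
      map_add' := by
        intro x y
        apply lp.ext
        funext p
        have : res p.1 (x + y) = res p.1 x + res p.1 y := by
          apply lp.ext; funext i; rfl
        show (f p.1 (res p.1 (x + y))) p.2 = (f p.1 (res p.1 x)) p.2 + (f p.1 (res p.1 y)) p.2
        rw [this, map_add]
        rfl
      map_smul' := by
        intro z x
        apply lp.ext
        funext p
        have : res p.1 (z • x) = z • res p.1 x := by
          apply lp.ext; funext i; rfl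
        show (f p.1 (res p.1 (z • x))) p.2 = z • (f p.1 (res p.1 x)) p.2
        rw [this, map_smul]
        rfl } |C| (fun x => norm_vec f C hC x)

theorem T_apply (f : ∀ n, Op (I n)) (C : ℝ) (hC : ∀ n, ‖f n‖ ≤ C) (x : L2 (Σ n, I n)) :
    T f C hC x = vec f C hC x := rfl

theorem e_apply {J : Type} (i j : J) [Decidable (j = i)] :
    (e i : L2 J) j = if j = i then 1 else 0 := by
  classical
  unfold e
  rw [lp.single_apply]
  by_cases h : j = i
  · subst h; simp
  · simp [h]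

theorem res_e_same (n : N) (j : I n) : res n (e (⟨n, j⟩ : Σ n, I n)) = e j := by
  classical
  apply lp.ext
  funext i
  rw [res_apply, e_apply, e_apply]
  by_cases h : i = j
  · subst h; simp
  · rw [if_neg h, if_neg]
    intro h2
    exact h (sigma_mk_injective h2)

theorem res_e_ne (n m : N) (hnm : n ≠ m) (j : I m) : res n (e (⟨m, j⟩ : Σ n, I n)) = 0 := by
  classical
  apply lp.ext
  funext i
  rw [res_apply, e_apply, if_neg]
  · rfl
  · intro h2
    exact hnm (congrArg Sigma.fst h2)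

theorem entry_T_same (f : ∀ n, Op (I n)) (C : ℝ) (hC : ∀ n, ‖f n‖ ≤ C) (n : N) (i j : I n) :
    entry (T f C hC) ⟨n, i⟩ ⟨n, j⟩ = entry (f n) i j := by
  unfold entry
  rw [T_apply, vec_apply, res_e_same]

theorem entry_T_ne (f : ∀ n, Op (I n)) (C : ℝ) (hC : ∀ n, ‖f n‖ ≤ C) (p q : Σ n, I n)
    (h : p.1 ≠ q.1) : entry (T f C hC) p q = 0 := by
  obtain ⟨n, i⟩ := p
  obtain ⟨m, j⟩ := q
  unfold entry
  rw [T_apply, vec_apply]
  simp only
  rw [res_e_ne n m h, map_zero]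
  rfl

theorem blk_eq (hE : ∀ (I : Type) (a b : Op I), (∀ i j, entry a i j = entry b i j) → a = b)
    (f : ∀ n, Op (I n)) (C : ℝ) (hC : ∀ n, ‖f n‖ ≤ C) : blk f = T f C hC := by
  classical
  have hex : ∃ a : Op (Σ n, I n), ∀ p q, entry a p q =
      if h : p.1 = q.1 then entry (f q.1) (h ▸ p.2) q.2 else 0 := by
    refine ⟨T f C hC, fun p q => ?_⟩
    obtain ⟨n, i⟩ := p
    obtain ⟨m, j⟩ := q
    by_cases h : n = m
    · subst h
      rw [entry_T_same]
      simp
    · rw [dif_neg h, entry_T_ne]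
      exact h
  have h1 : ∀ p q, entry (blk f) p q =
      if h : p.1 = q.1 then entry (f q.1) (h ▸ p.2) q.2 else 0 := by
    unfold blk opOf
    rw [dif_pos (by convert hex)]
    intro p q
    refine (Exists.choose_spec (_ : ∃ a : Op (Σ n, I n), ∀ p q, entry a p q = _) p q).trans ?_
    congr
  apply hE
  intro p q
  rw [h1]
  obtain ⟨n, i⟩ := p
  obtain ⟨m, j⟩ := q
  by_cases h : n = m
  · subst h
    rw [entry_T_same]
    simp
  · rw [dif_neg h, entry_T_ne]
    exact h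

theorem T_mul (f g : ∀ n, Op (I n)) (C D K : ℝ) (hC : ∀ n, ‖f n‖ ≤ C) (hD : ∀ n, ‖g n‖ ≤ D)
    (hK : ∀ n, ‖f n * g n‖ ≤ K) :
    T f C hC * T g D hD = T (fun n => f n * g n) K hK := by
  apply ContinuousLinearMap.ext
  intro x
  show T f C hC (T g D hD x) = _
  rw [T_apply, T_apply, T_apply]
  apply lp.ext
  funext p
  rw [vec_apply, vec_apply, res_vec]
  rfl

theorem T_one (K : ℝ) (hK : ∀ n, ‖(1 : Op (I n))‖ ≤ K) :
    T (fun n => (1 : Op (I n))) K hK = 1 := by
  apply ContinuousLinearMap.ext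
  intro x
  rw [T_apply]
  apply lp.ext
  funext p
  rw [vec_apply]
  rfl

theorem T_star (hE : ∀ (I : Type) (a b : Op I), (∀ i j, entry a i j = entry b i j) → a = b)
    (hS : ∀ (I : Type) (a : Op I) (i j : I), entry (star a) i j = star (entry a j i))
    (f : ∀ n, Op (I n)) (C : ℝ) (hC : ∀ n, ‖f n‖ ≤ C) (hC' : ∀ n, ‖star (f n)‖ ≤ C) :
    star (T f C hC) = T (fun n => star (f n)) C hC' := by
  apply hE
  intro p q
  rw [hS]
  obtain ⟨n, i⟩ := p
  obtain ⟨m, j⟩ := q
  by_cases h : n = m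
  · subst h
    rw [entry_T_same, entry_T_same, hS]
  · rw [entry_T_ne, entry_T_ne, star_zero]
    · exact h
    · exact fun h2 => h h2.symm

end

theorem main (hENT : S_ENT) : S_BLK := by
  obtain ⟨hE, hS, -, -, -⟩ := hENT
  intro N I f C hC
  refine ⟨fun n i j => ?_, fun p q h => ?_, fun hu => ?_⟩
  · rw [blk_eq hE f C hC, entry_T_same]
  · rw [blk_eq hE f C hC, entry_T_ne _ _ _ _ _ h]
  · rw [blk_eq hE f C hC, Unitary.mem_iff]
    have hC' : ∀ n, ‖star (f n)‖ ≤ C := fun n =>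
      (LinearIsometryEquiv.norm_map (ContinuousLinearMap.adjoint (𝕜 := ℂ) (E := L2 (I n)) (F := L2 (I n))) (f n)).trans_le (hC n)
    have h1 : ∀ n, star (f n) * f n = 1 := fun n => (Unitary.mem_iff.1 (hu n)).1
    have h2 : ∀ n, f n * star (f n) = 1 := fun n => (Unitary.mem_iff.1 (hu n)).2
    have hK : ∀ n, ‖star (f n) * f n‖ ≤ C * C := fun n =>
      (norm_mul_le _ _).trans (mul_le_mul (hC' n) (hC n) (norm_nonneg _)
        ((norm_nonneg _).trans (hC n)))
    have hK' : ∀ n, ‖f n * star (f n)‖ ≤ C * C := fun n =>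
      (norm_mul_le _ _).trans (mul_le_mul (hC n) (hC' n) (norm_nonneg _)
        ((norm_nonneg _).trans (hC n)))
    have hK1 : ∀ n, ‖(1 : Op (I n))‖ ≤ C * C := fun n => by rw [← h1 n]; exact hK n
    constructor
    · rw [T_star hE hS f C hC hC', T_mul _ _ _ _ (C * C) hC' hC hK, ← T_one (C * C) hK1]
      congr 1
      funext n
      exact h1 n
    · rw [T_star hE hS f C hC hC', T_mul _ _ _ _ (C * C) hC hC' hK', ← T_one (C * C) hK1]
      congr 1
      funext n
      exact h2 n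

end Pool.Agent.W639.BU.BLK
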